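import Mathlib

/-!
# Project HB (helper242), MP_73700b_an

No infinite-dimensional real Hilbert space (of any density character) has a point-finite covering
by closed balls.  A *system* is a set `B` of pairs (centre, radius).
-/

set_option autoImplicit false

open Metric Set Filter Topology

namespace Pool.Agent.N242.HB

universe u

variable {H : Type u} [NormedAddCommGroup H] [InnerProductSpace ℝ H]

/-- Minus the power of the point `x` with respect to the ball `b = (centre, radius)`. -/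
def val (b : H × ℝ) (x : H) : ℝ := b.2 ^ 2 - ‖x - b.1‖ ^ 2

/-- `B` is a point-finite covering of `H` by closed balls of positive radii. -/
structure PF (B : Set (H × ℝ)) : Prop where
  pos : ∀ b ∈ B, 0 < b.2
  cov : ∀ x : H, ∃ b ∈ B, ‖x - b.1‖ ≤ b.2
  fin : ∀ x : H, {b | b ∈ B ∧ ‖x - b.1‖ ≤ b.2}.Finite

/-- The ball `b` of the system is active at `x`: it maximises `val · x`. -/
def Act (B : Set (H × ℝ)) (x : H) (b : H × ℝ) : Prop :=
  b ∈ B ∧ ∀ b' ∈ B, val b' x ≤ val b x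

/-- The maximum of `val · x` over the system. -/
noncomputable def g (B : Set (H × ℝ)) (x : H) : ℝ := ⨆ b : B, val (b : H × ℝ) x

/-- (ACT) Elementary facts about active balls. -/
def S_ACT : Prop :=
  ∀ (H : Type u) [NormedAddCommGroup H] [InnerProductSpace ℝ H] (B : Set (H × ℝ)), PF B →
    (∀ x, ∃ b, Act B x b) ∧
    (∀ x b, Act B x b → val b x = g B x ∧ 0 ≤ val b x ∧ ‖x - b.1‖ ≤ b.2) ∧
    (∀ x, 0 ≤ g B x) ∧ (∀ b ∈ B, ∀ x, val b x ≤ g B x) ∧ (∀ x, {b | Act B x b}.Finite) ∧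
    (∀ x b, b ∈ B → val b x = g B x → Act B x b)

/-- (BND) The active balls are locally bounded. -/
def S_BND : Prop :=
  ∀ (H : Type u) [NormedAddCommGroup H] [InnerProductSpace ℝ H] [CompleteSpace H]
    (B : Set (H × ℝ)), PF B →
    ∀ x : H, ∃ ρ > 0, ∃ R : ℝ, ∀ y, ‖y - x‖ < ρ → ∀ b, Act B y b → ‖b.1‖ ≤ R ∧ b.2 ≤ R

/-- (CON) Continuity, and local finiteness where `g > 0`. -/
def S_CON : Prop :=
  ∀ (H : Type u) [NormedAddCommGroup H] [InnerProductSpace ℝ H] [CompleteSpace H]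
    (B : Set (H × ℝ)), PF B →
    Continuous (g B) ∧
    (∀ x, 0 < g B x → ∃ ρ > 0, ∀ y, ‖y - x‖ < ρ → ∀ b, Act B y b → Act B x b) ∧
    (∀ (u : ℕ → H) (x : H) (b : H × ℝ), Tendsto u atTop (𝓝 x) →
      (∀ᶠ n in atTop, Act B (u n) b) → Act B x b)

/-- (STP) One step in a direction `v` orthogonal to the centres of the active balls. -/
def S_STP : Prop :=
  ∀ (H : Type u) [NormedAddCommGroup H] [InnerProductSpace ℝ H] [CompleteSpace H]
    (B : Set (H × ℝ)), PF B → ∀ (x v : H) (T : ℝ), ‖v‖ = 1 → 0 ≤ T → T ^ 2 ≤ g B x →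
    (∀ b, Act B x b → inner ℝ v (b.1 - x) = 0) →
    ∃ t : ℝ, 0 ≤ t ∧ t ≤ T ∧ (∀ b, Act B x b → Act B (x + t • v) b) ∧
      g B (x + t • v) = g B x - t ^ 2 ∧
      (t = T ∨ (t < T ∧ ∃ b, Act B (x + t • v) b ∧ ¬ Act B x b))

/-- (GRD) From every point one reaches a zero of `g` without losing an active ball, by a move of
length `sqrt (g x)` orthogonal to any given finite-dimensional subspace. -/
def S_GRD : Prop :=
  ∀ (H : Type u) [NormedAddCommGroup H] [InnerProductSpace ℝ H] [CompleteSpace H]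
    (B : Set (H × ℝ)), ¬ FiniteDimensional ℝ H → PF B →
    ∀ (x : H) (V : Submodule ℝ H), FiniteDimensional ℝ V → 0 < g B x →
    ∃ p : H, g B p = 0 ∧ (∀ b, Act B x b → Act B p b) ∧ ‖p - x‖ ^ 2 = g B x ∧ p - x ∈ Vᗮ

/-- (AWY) Near every zero `p` of `g` there is a zero outside of all balls which contain `p`. -/
def S_AWY : Prop :=
  ∀ (H : Type u) [NormedAddCommGroup H] [InnerProductSpace ℝ H] [CompleteSpace H]
    (B : Set (H × ℝ)), ¬ FiniteDimensional ℝ H → PF B →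
    ∀ (p : H) (ρ : ℝ), 0 < ρ → g B p = 0 →
    ∃ z : H, g B z = 0 ∧ ‖z - p‖ < ρ ∧ ∀ b, Act B p b → b.2 < ‖z - b.1‖

/-- (BAI) Baire category in the closed set of the zeros of `g`. -/
def S_BAI : Prop :=
  ∀ (H : Type u) [NormedAddCommGroup H] [InnerProductSpace ℝ H] [CompleteSpace H]
    (B : Set (H × ℝ)), ¬ FiniteDimensional ℝ H → PF B →
    ∃ δ > 0, ∃ q : H, ∃ ρ > 0, g B q = 0 ∧
      ∀ p, g B p = 0 → ‖p - q‖ < ρ → ∀ ε > 0, ∃ z, g B z = 0 ∧ ‖z - p‖ < ε ∧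
        ∃ b, Act B z b ∧ δ ≤ b.2

/-- (NRM) Near `p` there are zeros `z` of `g` on balls of radius `≥ δ` whose radius vector is
almost orthogonal to any given finite-dimensional subspace. -/
def S_NRM : Prop :=
  ∀ (H : Type u) [NormedAddCommGroup H] [InnerProductSpace ℝ H] [CompleteSpace H]
    (B : Set (H × ℝ)), ¬ FiniteDimensional ℝ H → PF B →
    ∀ (δ : ℝ) (p : H) (ρ : ℝ), 0 < δ → 0 < ρ → g B p = 0 →
    (∀ p', g B p' = 0 → ‖p' - p‖ < ρ → ∀ ε > 0, ∃ z, g B z = 0 ∧ ‖z - p'‖ < ε ∧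
        ∃ b, Act B z b ∧ δ ≤ b.2) →
    ∃ R : ℝ, ∀ (V : Submodule ℝ H), FiniteDimensional ℝ V → ∀ ε > 0,
      ∃ z b, g B z = 0 ∧ ‖z - p‖ < ε ∧ Act B z b ∧ ‖z - b.1‖ = b.2 ∧ δ ≤ b.2 ∧ b.2 ≤ R ∧
        ∀ w ∈ V, |inner ℝ w (b.1 - z)| ≤ ε * ‖w‖

/-- (EXT) Near `p` there is a point with `g > 0` and more active balls. -/
def S_EXT : Prop :=
  ∀ (H : Type u) [NormedAddCommGroup H] [InnerProductSpace ℝ H] [CompleteSpace H]
    (B : Set (H × ℝ)), ¬ FiniteDimensional ℝ H → PF B →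
    ∀ (δ : ℝ) (x p : H) (ρ : ℝ), 0 < δ → 0 < ρ → g B p = 0 → 0 < g B x →
    (∀ b, Act B x b → Act B p b) →
    (∀ p', g B p' = 0 → ‖p' - p‖ < ρ → ∀ ε > 0, ∃ z, g B z = 0 ∧ ‖z - p'‖ < ε ∧
        ∃ b, Act B z b ∧ δ ≤ b.2) →
    ∀ ε > 0, ∃ x' : H, 0 < g B x' ∧ g B x' < ε ∧ ‖x' - p‖ < ε ∧
      (∀ b, Act B x b → Act B x' b) ∧ ∃ b, Act B x' b ∧ ¬ Act B x b

/-- (FIN) The theorem. -/
def S_FIN : Prop :=
  ∀ (H : Type u) [NormedAddCommGroup H] [InnerProductSpace ℝ H] [CompleteSpace H]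
    (B : Set (H × ℝ)), ¬ FiniteDimensional ℝ H → ¬ PF B

end Pool.Agent.N242.HB
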