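import Mathlib
import Pool.Agent.N242.HB.Ext

set_option autoImplicit false

open Metric Set Filter Topology

namespace Pool.Agent.N242.HB

universe u

/-- Abstract chain: a recursive construction with relations. -/
theorem exists_chain {α : Type*} (P : α → Prop) (r : ℕ → α → α → Prop) (a₀ : α) (h0 : P a₀)
    (hs : ∀ n a, P a → ∃ b, P b ∧ r n a b) :
    ∃ f : ℕ → α, f 0 = a₀ ∧ (∀ n, P (f n)) ∧ ∀ n, r n (f n) (f (n + 1)) := by
  choose F hF1 hF2 using hs
  let G : ℕ → {a // P a} := fun n => Nat.rec ⟨a₀, h0⟩ (fun k a => ⟨F k a.1 a.2, hF1 k a.1 a.2⟩) n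
  refine ⟨fun n => (G n).1, rfl, fun n => (G n).2, fun n => ?_⟩
  exact hF2 n (G n).1 (G n).2

theorem t_FIN (h1 : S_ACT.{u}) (h2 : S_CON.{u}) (h3 : S_GRD.{u}) (h4 : S_BAI.{u})
    (h5 : S_EXT.{u}) : S_FIN.{u} := by
  intro H _ _ _ B hinf hB
  obtain ⟨hex, hact, hg0, hle, hfin, hlast⟩ := h1 H B hB
  obtain ⟨hcont, -, hlim⟩ := h2 H B hB
  obtain ⟨δ, hδ, q, ρ, hρ, hgq, hD⟩ := h4 H B hinf hB
  -- starting point
  obtain ⟨b, hb⟩ := hex q
  have hbpos : 0 < b.2 := hB.pos b hb.1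
  have hvq : val b q = 0 := by rw [(hact q b hb).1, hgq]
  have hqb : ‖q - b.1‖ ^ 2 = b.2 ^ 2 := by unfold val at hvq; linarith
  obtain ⟨x₀, hx0, hgx0, hx0q⟩ : ∃ x₀ : H, 0 < g B x₀ ∧ g B x₀ < (ρ / 8) ^ 2 ∧ ‖x₀ - q‖ < ρ / 8 := by
    have hc1 : Tendsto (fun s : ℝ => g B (q + s • (b.1 - q))) (𝓝[>] 0) (𝓝 0) := by
      have : Continuous (fun s : ℝ => g B (q + s • (b.1 - q))) := by fun_prop
      have h := (this.tendsto 0).mono_left (nhdsWithin_le_nhds (s := Ioi (0 : ℝ)))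
      simpa [hgq] using h
    have hc2 : Tendsto (fun s : ℝ => ‖q + s • (b.1 - q) - q‖) (𝓝[>] 0) (𝓝 0) := by
      have : Continuous (fun s : ℝ => ‖q + s • (b.1 - q) - q‖) := by fun_prop
      have h := (this.tendsto 0).mono_left (nhdsWithin_le_nhds (s := Ioi (0 : ℝ)))
      simpa using h
    have e1 := hc1.eventually (gt_mem_nhds (show (0 : ℝ) < (ρ / 8) ^ 2 by positivity))
    have e2 := hc2.eventually (gt_mem_nhds (show (0 : ℝ) < ρ / 8 by positivity))
    have e3 : ∀ᶠ s : ℝ in 𝓝[>] 0, 0 < s ∧ s < 1 := by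
      filter_upwards [Ioo_mem_nhdsGT (show (0 : ℝ) < 1 by norm_num)] with s hs using hs
    obtain ⟨s, hs1, hs2, hs3, hs4⟩ := (e1.and (e2.and e3)).exists
    refine ⟨q + s • (b.1 - q), ?_, hs1, hs2⟩
    refine lt_of_lt_of_le ?_ (hle b hb.1 _)
    have hself : val b b.1 = b.2 ^ 2 := by unfold val; simp
    rw [val_seg, hvq, hself]
    have : 0 ≤ s * (1 - s) * ‖b.1 - q‖ ^ 2 := by
      have : 0 ≤ 1 - s := by linarith
      positivity
    have : 0 < s * b.2 ^ 2 := by positivity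
    linarith
  obtain ⟨p₀, hgp0, hA0, hd0, -⟩ := h3 H B hinf hB x₀ ⊥ inferInstance hx0
  have hp0x0 : ‖p₀ - x₀‖ < ρ / 8 := by
    have : ‖p₀ - x₀‖ ^ 2 < (ρ / 8) ^ 2 := by rw [hd0]; exact hgx0
    exact lt_of_pow_lt_pow_left₀ 2 (by positivity) this
  have hp0q : ‖p₀ - q‖ < ρ / 4 := by
    have : p₀ - q = (p₀ - x₀) + (x₀ - q) := by abel
    rw [this]
    refine lt_of_le_of_lt (norm_add_le _ _) ?_
    linarith
  -- the chain of pairs (x, p, n)
  let P : ℕ → H × H → Prop := fun n a => 0 < g B a.1 ∧ g B a.2 = 0 ∧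
    (∀ b, Act B a.1 b → Act B a.2 b) ∧ ‖a.2 - q‖ < ρ / 2 - ρ / 4 * (1 / 2) ^ n ∧
    ‖a.2 - a.1‖ < ρ / 8 * (1 / 2) ^ n
  let r : H × H → H × H → Prop := fun a a' => (∀ b, Act B a.1 b → Act B a'.1 b) ∧
    ∃ b, Act B a'.1 b ∧ ¬ Act B a.1 b
  have hstep : ∀ (n : ℕ) (a : H × H), P n a → ∃ a', P (n + 1) a' ∧ r a a' ∧
      ‖a'.1 - a.2‖ < ρ / 16 * (1 / 2) ^ n := by
    rintro n ⟨x, p⟩ ⟨hx, hp, hA, hpq, hpx⟩
    simp only at hx hp hA hpq hpx
    have hpw : 0 < ρ * (1 / 2 : ℝ) ^ n := by positivity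
    set e : ℝ := ρ / 16 * (1 / 2) ^ n with he
    have he0 : 0 < e := by positivity
    have hr' : 0 < ρ - ‖p - q‖ := by nlinarith
    obtain ⟨x', hx'0, hgx', hx'p, hkeep, hnew⟩ := h5 H B hinf hB δ x p (ρ - ‖p - q‖) hδ hr' hp hx hA
      (by
        intro p' hp' hpp'
        refine hD p' hp' ?_
        have : p' - q = (p' - p) + (p - q) := by abel
        rw [this]
        refine lt_of_le_of_lt (norm_add_le _ _) ?_
        linarith) (min e (e ^ 2)) (by positivity)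
    obtain ⟨p', hgp', hA', hd', -⟩ := h3 H B hinf hB x' ⊥ inferInstance hx'0
    have hp'x' : ‖p' - x'‖ < e := by
      have : ‖p' - x'‖ ^ 2 < e ^ 2 := by
        rw [hd']; exact lt_of_lt_of_le hgx' (min_le_right _ _)
      exact lt_of_pow_lt_pow_left₀ 2 he0.le this
    have hx'p2 : ‖x' - p‖ < e := lt_of_lt_of_le hx'p (min_le_left _ _)
    refine ⟨(x', p'), ⟨hx'0, hgp', hA', ?_, ?_⟩, ⟨hkeep, hnew⟩, hx'p2⟩
    · have : p' - q = (p' - x') + (x' - p) + (p - q) := by abel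
      simp only
      rw [this]
      have h6 := norm_add_le ((p' - x') + (x' - p)) (p - q)
      have h7 := norm_add_le (p' - x') (x' - p)
      have h8 : ρ / 2 - ρ / 4 * (1 / 2 : ℝ) ^ (n + 1) =
        (ρ / 2 - ρ / 4 * (1 / 2 : ℝ) ^ n) + 2 * e := by rw [he, pow_succ]; ring
      rw [h8]
      linarith
    · simp only
      have h8 : ρ / 8 * (1 / 2 : ℝ) ^ (n + 1) = e := by rw [he, pow_succ]; ring
      rw [h8]; exact hp'x'
  obtain ⟨f, -, hf1, hf2⟩ := exists_chain (α := ℕ × (H × H)) (fun a => P a.1 a.2)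
    (fun _ a a' => a'.1 = a.1 + 1 ∧ r a.2 a'.2 ∧ ‖a'.2.1 - a.2.2‖ < ρ / 16 * (1 / 2) ^ a.1)
    (0, (x₀, p₀)) (by
      refine ⟨hx0, hgp0, hA0, ?_, ?_⟩
      · simp only [pow_zero, mul_one]
        linarith
      · simpa using hp0x0)
    (by
      rintro n ⟨m, a⟩ ha
      obtain ⟨a', h6, h7, h8⟩ := hstep m a ha
      exact ⟨(m + 1, a'), h6, rfl, h7, h8⟩)
  have hindex : ∀ n, (f n).1 = (f 0).1 + n := by
    intro n
    induction n with
    | zero => rfl
    | succ n ih => rw [(hf2 n).1, ih]; ring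
  set u : ℕ → H := fun n => (f n).2.1 with hu
  have hdist : ∀ n, ‖u (n + 1) - u n‖ ≤ ρ / 4 * (1 / 2) ^ n := by
    intro n
    have h6 := (hf2 n).2.2
    have h7 := (hf1 n).2.2.2.2
    have h8 : (1 / 2 : ℝ) ^ (f n).1 ≤ (1 / 2) ^ n := by
      apply pow_le_pow_of_le_one (by norm_num) (by norm_num)
      rw [hindex n]; omega
    have : u (n + 1) - u n = ((f (n + 1)).2.1 - (f n).2.2) + ((f n).2.2 - (f n).2.1) := by
      simp only [hu]; abel
    rw [this]
    refine (norm_add_le _ _).trans ?_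
    have h9 : ρ * (1 / 2 : ℝ) ^ (f n).1 ≤ ρ * (1 / 2) ^ n := mul_le_mul_of_nonneg_left h8 hρ.le
    have h10 : 0 ≤ ρ * (1 / 2 : ℝ) ^ n := by positivity
    linarith
  have hcau : CauchySeq u := by
    refine cauchySeq_of_le_geometric (1 / 2) (ρ / 4) (by norm_num) (fun n => ?_)
    rw [dist_comm, dist_eq_norm]
    exact hdist n
  obtain ⟨x, hx⟩ := cauchySeq_tendsto_of_complete hcau
  have hmono : ∀ n b, Act B (u n) b → ∀ m, n ≤ m → Act B (u m) b := by
    intro n b hb m hnm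
    induction m, hnm using Nat.le_induction with
    | base => exact hb
    | succ m _ ih => exact (hf2 m).2.1.1 b ih
  have hall : ∀ n b, Act B (u n) b → Act B x b := fun n b hb =>
    hlim u x b hx (eventually_atTop.2 ⟨n, fun m hm => hmono n b hb m hm⟩)
  -- contradiction
  have hss : StrictMono (fun n => {b | Act B (u n) b}) := by
    refine strictMono_nat_of_lt_succ (fun n => ?_)
    obtain ⟨b, hb1, hb2⟩ := (hf2 n).2.1.2
    exact ⟨fun b hb => (hf2 n).2.1.1 b hb, fun h => hb2 (h hb1)⟩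
  have hcard : ∀ n, n ≤ ({b | Act B (u n) b}).ncard := by
    intro n
    induction n with
    | zero => exact Nat.zero_le _
    | succ n ih =>
      have h : ({b | Act B (u n) b}).ncard < ({b | Act B (u (n + 1)) b}).ncard :=
        Set.ncard_lt_ncard (hss (Nat.lt_succ_self n)) (hfin _)
      exact lt_of_le_of_lt ih h
  have hb : ∀ n, n ≤ ({b | Act B x b}).ncard := fun n =>
    (hcard n).trans (Set.ncard_le_ncard (fun b hb => hall n b hb) (hfin _))
  have := hb (({b | Act B x b}).ncard + 1)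
  omega

end Pool.Agent.N242.HB
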